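import Pool.Agent.Q266.VG.Stm

/-!
# Project VG, job STEPBC: preparations
-/

set_option autoImplicit false

namespace Pool.Agent.Q217.VG

open Pool.Agent.Q266.VG
open scoped commutatorElement

/-! ## The quotient -/

theorem normal_pow7 : (Subgroup.closure (Set.range fun x : F => x ^ 7)).Normal := by
  refine ⟨fun n hn g => ?_⟩
  induction hn using Subgroup.closure_induction with
  | mem x hx =>
    obtain ⟨y, rfl⟩ := hx
    exact Subgroup.subset_closure ⟨g * y * g⁻¹, by simp only [conj_pow]⟩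
  | one => simp
  | mul x y _ _ hx hy =>
    have := mul_mem hx hy
    simpa [mul_assoc] using this
  | inv x _ hx =>
    have := inv_mem hx
    simpa [mul_assoc] using this

instance normalU : U.Normal := by
  have := normal_pow7
  unfold U
  infer_instance

instance normalV : V.Normal := by
  unfold V
  infer_instance

/-- the quotient -/
abbrev P : Type := F ⧸ V

/-- the projection -/
abbrev mk : F →* P := QuotientGroup.mk' V

theorem mk_surj : Function.Surjective mk := QuotientGroup.mk'_surjective V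

theorem mk_eq_one {w : F} : mk w = 1 ↔ w ∈ V := QuotientGroup.eq_one_iff w

theorem mk_central (u : F) (hu : u ∈ U) : mk u ∈ Subgroup.center P := by
  rw [Subgroup.mem_center_iff]
  intro g
  obtain ⟨g, rfl⟩ := mk_surj g
  have h1 : ⁅u, g⁆ ∈ V := Subgroup.commutator_mem_commutator hu (Subgroup.mem_top g)
  have h : ⁅mk u, mk g⁆ = 1 := by rw [← map_commutatorElement]; exact mk_eq_one.2 h1
  exact (commutatorElement_eq_one_iff_mul_comm.1 h).symm

theorem D2_le_U : D2 F ≤ U := le_sup_left.trans le_sup_right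

theorem gam4_le_U : gam F 4 ≤ U := le_sup_right.trans le_sup_right

theorem pow7_mem_U (x : F) : x ^ 7 ∈ U :=
  (le_sup_left : Subgroup.closure (Set.range fun x : F => x ^ 7) ≤ U)
    (Subgroup.subset_closure ⟨x, rfl⟩)

theorem D2_P : D2 P ≤ Subgroup.center P := by
  have h : (D2 F).map mk = D2 P := map_derivedSeries_eq mk_surj 2
  rw [← h]
  rintro _ ⟨w, hw, rfl⟩
  exact mk_central w (D2_le_U hw)

theorem pow7_P (g : P) : g ^ 7 ∈ Subgroup.center P := by
  obtain ⟨g, rfl⟩ := mk_surj g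
  rw [← map_pow]
  exact mk_central _ (pow7_mem_U g)

theorem gam5_le_V : gam F 5 ≤ V := by
  have h : gam F 5 = ⁅gam F 4, (⊤ : Subgroup F)⁆ := rfl
  rw [h]
  exact Subgroup.commutator_mono gam4_le_U le_rfl

theorem gam5_P : gam P 5 = ⊥ := by
  have h : (gam F 5).map mk = ((⊤ : Subgroup F).map mk).lowerCentralSeries 5 :=
    Subgroup.map_lowerCentralSeries _ mk 5
  rw [Subgroup.map_top_of_surjective mk mk_surj] at h
  change (⊤ : Subgroup P).lowerCentralSeries 5 = ⊥
  rw [← h, eq_bot_iff]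
  rintro _ ⟨w, hw, rfl⟩
  exact Subgroup.mem_bot.2 (mk_eq_one.2 (gam5_le_V hw))

/-- the target -/
abbrev L : Type := Additive (Subgroup.center P)

instance commGroupCenter : CommGroup (Subgroup.center P) :=
  { (inferInstance : Group (Subgroup.center P)) with
    mul_comm := fun a b => Subtype.ext (b.2.comm a).symm }

open Classical in
/-- the class of an element of `U` -/
noncomputable def F1 (w : F) : L :=
  if h : w ∈ U then Additive.ofMul ⟨mk w, mk_central w h⟩ else 0

theorem F1_of {w : F} (h : w ∈ U) : F1 w = Additive.ofMul ⟨mk w, mk_central w h⟩ := by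
  unfold F1
  rw [dif_pos h]

theorem F1_mul {g h : F} (hg : g ∈ U) (hh : h ∈ U) : F1 (g * h) = F1 g + F1 h := by
  rw [F1_of hg, F1_of hh, F1_of (mul_mem hg hh), ← ofMul_mul]
  congr 1

theorem F1_inv {g : F} (hg : g ∈ U) : F1 g⁻¹ = -F1 g := by
  rw [F1_of hg, F1_of (inv_mem hg), ← ofMul_inv]
  congr 1

theorem F1_eq_zero {g : F} (hg : g ∈ U) : F1 g = 0 ↔ g ∈ V := by
  rw [F1_of hg, ofMul_eq_zero, ← mk_eq_one, Subtype.ext_iff]
  rfl

theorem F1_congr {g h : F} (hg : g ∈ U) (hh : h ∈ U) (e : mk g = mk h) : F1 g = F1 h := by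
  rw [F1_of hg, F1_of hh]
  congr 1
  exact Subtype.ext e

theorem F1_pow {g : F} (hg : g ∈ U) (n : ℕ) : F1 (g ^ n) = n • F1 g := by
  induction n with
  | zero => simp [(F1_eq_zero (one_mem U)).2 (one_mem V)]
  | succ n ih => rw [pow_succ, F1_mul (pow_mem hg n) hg, ih, succ_nsmul]

/-- the letters in the quotient -/
def xP (k : ℕ) : P := mk (FreeGroup.of k)

theorem mk_Q (a b c d : ℕ) : mk (Q FreeGroup.of a b c d) = Q xP a b c d := by
  simp only [Q, map_commutatorElement]; rfl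

theorem mk_T (a b c d e : ℕ) : mk (T FreeGroup.of a b c d e) = T xP a b c d e := by
  simp only [T, map_commutatorElement]; rfl

theorem comm_mem1 {G : Type} [Group G] (g h : G) : ⁅g, h⁆ ∈ derivedSeries G 1 := by
  change ⁅g, h⁆ ∈ ⁅(⊤ : Subgroup G), (⊤ : Subgroup G)⁆
  exact Subgroup.commutator_mem_commutator (Subgroup.mem_top g) (Subgroup.mem_top h)

theorem comm_mem2 {G : Type} [Group G] {g h : G} (hg : g ∈ derivedSeries G 1)
    (hh : h ∈ derivedSeries G 1) : ⁅g, h⁆ ∈ D2 G :=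
  Subgroup.commutator_mem_commutator hg hh

theorem Q_mem (a b c d : ℕ) : Q FreeGroup.of a b c d ∈ D2 F :=
  comm_mem2 (comm_mem1 _ _) (comm_mem1 _ _)

theorem T_mem (a b c d e : ℕ) : T FreeGroup.of a b c d e ∈ D2 F :=
  comm_mem2 (comm_mem1 _ _) (comm_mem1 _ _)

/-- values of `Q` -/
noncomputable def q (a b c d : ℕ) : L := F1 (Q FreeGroup.of a b c d)

/-- values of `T` -/
noncomputable def t (a b c d e : ℕ) : L := F1 (T FreeGroup.of a b c d e)

theorem q_rel (hR : S_RELQ) (a b c d : ℕ) :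
    q b a c d = -q a b c d ∧ q a b d c = -q a b c d ∧ q c d a b = -q a b c d := by
  obtain ⟨h1, h2, h3, _⟩ := hR P xP D2_P pow7_P a b c d
  have hU := D2_le_U (Q_mem a b c d)
  unfold q
  rw [← F1_inv hU]
  refine ⟨F1_congr (D2_le_U (Q_mem _ _ _ _)) (inv_mem hU) ?_,
    F1_congr (D2_le_U (Q_mem _ _ _ _)) (inv_mem hU) ?_,
    F1_congr (D2_le_U (Q_mem _ _ _ _)) (inv_mem hU) ?_⟩
  · rw [map_inv, mk_Q, mk_Q, h1]
  · rw [map_inv, mk_Q, mk_Q, h2]
  · rw [map_inv, mk_Q, mk_Q, h3]

theorem q_seven (hR : S_RELQ) (a b c d : ℕ) : (7 : ℕ) • q a b c d = 0 := by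
  obtain ⟨_, _, _, h⟩ := hR P xP D2_P pow7_P a b c d
  have hU := D2_le_U (Q_mem a b c d)
  unfold q
  rw [← F1_pow hU, F1_eq_zero (pow_mem hU 7), ← mk_eq_one, map_pow, mk_Q, h]

theorem t_rel (hR : S_RELT) (a b c d e : ℕ) :
    t b a c d e = -t a b c d e ∧ t c d a b e = t a b c d e ∧
      t a b c d e + t a b d e c + t a b e c d = 0 := by
  obtain ⟨h1, h2, h3, _⟩ := hR P xP D2_P pow7_P gam5_P a b c d e
  have hU := D2_le_U (T_mem a b c d e)
  have hU1 := D2_le_U (T_mem a b d e c)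
  have hU2 := D2_le_U (T_mem a b e c d)
  unfold t
  refine ⟨?_, ?_, ?_⟩
  · rw [← F1_inv hU]
    refine F1_congr (D2_le_U (T_mem _ _ _ _ _)) (inv_mem hU) ?_
    rw [map_inv, mk_T, mk_T, h1]
  · refine F1_congr (D2_le_U (T_mem _ _ _ _ _)) hU ?_
    rw [mk_T, mk_T, h2]
  · rw [← F1_mul hU hU1, ← F1_mul (mul_mem hU hU1) hU2,
      F1_eq_zero (mul_mem (mul_mem hU hU1) hU2), ← mk_eq_one, map_mul, map_mul, mk_T, mk_T, mk_T,
      h3]

theorem t_seven (hR : S_RELT) (a b c d e : ℕ) : (7 : ℕ) • t a b c d e = 0 := by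
  obtain ⟨_, _, _, h⟩ := hR P xP D2_P pow7_P gam5_P a b c d e
  have hU := D2_le_U (T_mem a b c d e)
  unfold t
  rw [← F1_pow hU, F1_eq_zero (pow_mem hU 7), ← mk_eq_one, map_pow, mk_T, h]

/-! ## Lists -/

theorem sum_flat {α β M : Type} [AddCommMonoid M] (l : List α) (f : α → List β) (g : β → M) :
    ((l.flatMap f).map g).sum = (l.map (fun x => ((f x).map g).sum)).sum := by
  induction l with
  | nil => simp
  | cons a l ih => simp [ih]

/-- the homomorphism given by a function which is additive on a subgroup -/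
def toHom {G M : Type} [Group G] [AddCommGroup M] (D : Subgroup G) (Ψ : G → M)
    (hmul : ∀ g ∈ D, ∀ h ∈ D, Ψ (g * h) = Ψ g + Ψ h) : D →* Multiplicative M :=
  MonoidHom.mk' (fun g => Multiplicative.ofAdd (Ψ g))
    (fun g h => by rw [← ofAdd_add, ← hmul _ g.2 _ h.2]; rfl)

section
variable {G M : Type} [Group G] [AddCommGroup M] {D : Subgroup G} {Ψ : G → M}
  (hmul : ∀ g ∈ D, ∀ h ∈ D, Ψ (g * h) = Ψ g + Ψ h)
include hmul

theorem psi_one : Ψ 1 = 0 := by
  have := hmul 1 (one_mem D) 1 (one_mem D)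
  rw [mul_one] at this
  simpa using this

theorem psi_inv {g : G} (hg : g ∈ D) : Ψ g⁻¹ = -Ψ g := by
  have := hmul g⁻¹ (inv_mem hg) g hg
  rw [inv_mul_cancel, psi_one hmul] at this
  exact (neg_eq_of_add_eq_zero_left this.symm).symm

theorem psi_zpow {g : G} (hg : g ∈ D) (n : ℤ) : Ψ (g ^ n) = n • Ψ g := by
  have h := map_zpow (toHom D Ψ hmul) ⟨g, hg⟩ n
  exact congrArg Multiplicative.toAdd h

theorem psi_list {ι : Type} (e : ι → G) (he : ∀ i, e i ∈ D) (l : List (ℤ × ι)) :
    (l.map fun t => e t.2 ^ t.1).prod ∈ D ∧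
      Ψ (l.map fun t => e t.2 ^ t.1).prod = (l.map fun t => t.1 • Ψ (e t.2)).sum := by
  induction l with
  | nil => simp [psi_one hmul, one_mem]
  | cons a l ih =>
    simp only [List.map_cons, List.prod_cons, List.sum_cons]
    exact ⟨mul_mem (zpow_mem (he _) _) ih.1, by
      rw [hmul _ (zpow_mem (he _) _) _ ih.1, psi_zpow hmul (he _), ih.2]⟩

theorem rep {ι κ : Type} (e : ι → G) (e' : κ → G) (he : ∀ i, e i ∈ D) (he' : ∀ i, e' i ∈ D)
    (w : G) (hw : w ∈ Subgroup.closure (Set.range e ∪ Set.range e')) :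
    w ∈ D ∧ ∃ (l : List (ℤ × ι)) (l' : List (ℤ × κ)),
      Ψ w = (l.map fun t => t.1 • Ψ (e t.2)).sum + (l'.map fun t => t.1 • Ψ (e' t.2)).sum := by
  induction hw using Subgroup.closure_induction with
  | mem x hx =>
    rcases hx with ⟨i, rfl⟩ | ⟨i, rfl⟩
    · exact ⟨he i, [(1, i)], [], by simp⟩
    · exact ⟨he' i, [], [(1, i)], by simp⟩
  | one => exact ⟨one_mem D, [], [], by simp [psi_one hmul]⟩
  | mul x y _ _ hx hy =>
    obtain ⟨hx, l1, l1', h1⟩ := hx
    obtain ⟨hy, l2, l2', h2⟩ := hy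
    refine ⟨mul_mem hx hy, l1 ++ l2, l1' ++ l2', ?_⟩
    rw [hmul x hx y hy, h1, h2]
    simp only [List.map_append, List.sum_append]
    abel
  | inv x _ hx =>
    obtain ⟨hx, l1, l1', h1⟩ := hx
    have hneg : ∀ {ν : Type} (f : ν → M) (l : List (ℤ × ν)),
        ((l.map fun t => (-t.1, t.2)).map fun t => t.1 • f t.2).sum =
          -(l.map fun t => t.1 • f t.2).sum := by
      intro ν f l
      induction l with
      | nil => simp
      | cons a l ih =>
        simp only [List.map_cons, List.sum_cons, ih, neg_smul]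
        abel
    refine ⟨inv_mem hx, l1.map fun t => (-t.1, t.2), l1'.map fun t => (-t.1, t.2), ?_⟩
    rw [psi_inv hmul hx, h1, hneg (fun i => Ψ (e i)) l1, hneg (fun i => Ψ (e' i)) l1']
    abel

end

end Pool.Agent.Q217.VG
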