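import Pool.Agent.Q217.VG.A

/-!
# Project VG, job STEPBC: the matrix representations
-/

set_option autoImplicit false

namespace Pool.Agent.Q217.VG

open Pool.Agent.Q266.VG
open scoped commutatorElement

theorem isN_one0 (d : ℕ) : IsN d 0 (1 : Mat d) := by
  intro i j h
  have hne : i ≠ j := by
    intro he
    subst he
    omega
  exact Matrix.one_apply_ne hne

theorem lin_mul {g h X Y : Mat 6} (hg : IsN 6 2 (g - 1 - X)) (hh : IsN 6 2 (h - 1 - Y))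
    (hX : IsN 6 1 X) (hY : IsN 6 1 Y) : IsN 6 2 (g * h - 1 - (X + Y)) := by
  have h1 : IsN 6 1 (h - 1) := by
    have : h - 1 = (h - 1 - Y) + Y := by abel
    rw [this]
    exact (hh.mono (by norm_num)).add hY
  have h0 : IsN 6 0 h := by
    have : h = (h - 1) + 1 := by abel
    rw [this]
    exact (h1.mono (by norm_num)).add (isN_one0 6)
  have e : g * h - 1 - (X + Y) = (g - 1 - X) * h + (h - 1 - Y) + X * (h - 1) := by
    noncomm_ring
  rw [e]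
  exact ((hg.mul h0).add hh).add (hX.mul h1)

theorem lin_pow {g X : Mat 6} (hg : IsN 6 2 (g - 1 - X)) (hX : IsN 6 1 X) (n : ℕ) :
    IsN 6 2 (g ^ n - 1 - (n : ZMod 7) • X) := by
  induction n with
  | zero => simp [IsN.zero]
  | succ n ih =>
    have := lin_mul ih hg (hX.smul _) hX
    rw [pow_succ]
    have e : ((n + 1 : ℕ) : ZMod 7) • X = (n : ZMod 7) • X + X := by
      push_cast
      rw [add_smul, one_smul]
    rw [e]
    exact this

section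
variable (A B : (Mat 6)ˣ)

/-- the images of the letters -/
def phiv (v : Fin 3 × ℕ → ZMod 7) : F →* F2 :=
  FreeGroup.lift (fun k => (FreeGroup.of 0 : F2) ^ (v (0, k)).val *
    (FreeGroup.of 1 : F2) ^ (v (1, k)).val *
    ⁅(FreeGroup.of 0 : F2), (FreeGroup.of 1 : F2)⁆ ^ (v (2, k)).val)

/-- the representation -/
def rho (v : Fin 3 × ℕ → ZMod 7) : F →* (Mat 6)ˣ := (FreeGroup.lift ![A, B]).comp (phiv v)

/-- the letters -/
def xv (v : Fin 3 × ℕ → ZMod 7) (k : ℕ) : (Mat 6)ˣ :=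
  A ^ (v (0, k)).val * B ^ (v (1, k)).val * ⁅A, B⁆ ^ (v (2, k)).val

theorem rho_of (v : Fin 3 × ℕ → ZMod 7) (k : ℕ) : rho A B v (FreeGroup.of k) = xv A B v k := by
  simp [rho, phiv, xv, map_commutatorElement]

theorem rho_Q (v : Fin 3 × ℕ → ZMod 7) (a b c d : ℕ) :
    rho A B v (Q FreeGroup.of a b c d) =
      ⁅⁅xv A B v a, xv A B v b⁆, ⁅xv A B v c, xv A B v d⁆⁆ := by
  simp only [Q, map_commutatorElement, rho_of]

theorem rho_T (v : Fin 3 × ℕ → ZMod 7) (a b c d e : ℕ) :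
    rho A B v (T FreeGroup.of a b c d e) =
      ⁅⁅xv A B v a, xv A B v b⁆, ⁅⁅xv A B v c, xv A B v d⁆, xv A B v e⁆⁆ := by
  simp only [T, map_commutatorElement, rho_of]

/-- the value -/
def fv (v : Fin 3 × ℕ → ZMod 7) (w : F) : ZMod 7 := ((rho A B v w : (Mat 6)ˣ) : Mat 6) 0 5

variable {A B}

theorem comm_lin (hLEAD : S_LEAD) (hA : (A : Mat 6) = 1 + aC) (hB : (B : Mat 6) = 1 + bC) :
    IsN 6 2 (((⁅A, B⁆ : (Mat 6)ˣ) : Mat 6) - 1 - 0) := by
  have hA1 : (A : Mat 6) - 1 = aC := by rw [hA]; abel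
  have hB1 : (B : Mat 6) - 1 = bC := by rw [hB]; abel
  have h := hLEAD 6 1 1 A B le_rfl le_rfl (by rw [hA1]; exact isN_aC) (by rw [hB1]; exact isN_bC)
  rw [hA1, hB1] at h
  have h2 : IsN 6 2 (aC * bC - bC * aC) := (isN_aC.mul isN_bC).sub (isN_bC.mul isN_aC)
  have e : ((⁅A, B⁆ : (Mat 6)ˣ) : Mat 6) - 1 - 0 =
      (((⁅A, B⁆ : (Mat 6)ˣ) : Mat 6) - 1 - (aC * bC - bC * aC)) + (aC * bC - bC * aC) := by
    abel
  rw [e]
  exact (h.mono (by norm_num)).add h2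

theorem lin_AB (hA : (A : Mat 6) = 1 + aC) (hB : (B : Mat 6) = 1 + bC) (n m : ZMod 7) :
    IsN 6 2 (((A ^ n.val * B ^ m.val : (Mat 6)ˣ) : Mat 6) - 1 - (n • aC + m • bC)) := by
  have hA1 : IsN 6 2 ((A : Mat 6) - 1 - aC) := by
    rw [hA]
    have : (1 + aC - 1 - aC : Mat 6) = 0 := by abel
    rw [this]
    exact IsN.zero 6 2
  have hB1 : IsN 6 2 ((B : Mat 6) - 1 - bC) := by
    rw [hB]
    have : (1 + bC - 1 - bC : Mat 6) = 0 := by abel
    rw [this]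
    exact IsN.zero 6 2
  have h := lin_mul (lin_pow hA1 isN_aC n.val) (lin_pow hB1 isN_bC m.val)
    (isN_aC.smul _) (isN_bC.smul _)
  rw [ZMod.natCast_zmod_val, ZMod.natCast_zmod_val] at h
  rw [Units.val_mul, Units.val_pow_eq_pow_val, Units.val_pow_eq_pow_val]
  exact h

theorem lin_xv (hLEAD : S_LEAD) (hA : (A : Mat 6) = 1 + aC) (hB : (B : Mat 6) = 1 + bC)
    (v : Fin 3 × ℕ → ZMod 7) (k : ℕ) :
    IsN 6 2 (((xv A B v k : (Mat 6)ˣ) : Mat 6) - 1 - v (0, k) • aC - v (1, k) • bC) := by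
  have h1 := lin_AB hA hB (v (0, k)) (v (1, k))
  have h2 := lin_pow (comm_lin hLEAD hA hB) (IsN.zero 6 1) (v (2, k)).val
  have h3 := lin_mul h1 h2 ((isN_aC.smul _).add (isN_bC.smul _)) ((IsN.zero 6 1).smul _)
  unfold xv
  rw [Units.val_mul, Units.val_pow_eq_pow_val (⁅A, B⁆)]
  have e : ((A ^ (v (0, k)).val * B ^ (v (1, k)).val : (Mat 6)ˣ) : Mat 6) *
      ((⁅A, B⁆ : (Mat 6)ˣ) : Mat 6) ^ (v (2, k)).val - 1 - v (0, k) • aC - v (1, k) • bC =
      ((A ^ (v (0, k)).val * B ^ (v (1, k)).val : (Mat 6)ˣ) : Mat 6) *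
      ((⁅A, B⁆ : (Mat 6)ˣ) : Mat 6) ^ (v (2, k)).val - 1 - (v (0, k) • aC + v (1, k) • bC +
        (((v (2, k)).val : ℕ) : ZMod 7) • (0 : Mat 6)) := by
    rw [smul_zero]
    abel
  rw [e]
  exact h3

theorem rho_lin (hUNI : S_UNI) (hLEAD : S_LEAD) (hA : (A : Mat 6) = 1 + aC)
    (hB : (B : Mat 6) = 1 + bC) (v : Fin 3 × ℕ → ZMod 7) (w : F) :
    ∃ n m : ZMod 7, IsN 6 2 (((rho A B v w : (Mat 6)ˣ) : Mat 6) - 1 - n • aC - m • bC) := by
  refine hUNI.2.2.2 ℕ 6 aC bC (rho A B v) isN_aC isN_bC (fun k => ⟨v (0, k), v (1, k), ?_⟩) w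
  rw [rho_of]
  exact lin_xv hLEAD hA hB v k

theorem fv_mul (hUNI : S_UNI) (hLEAD : S_LEAD) (hK : S_KSIX) (hA : (A : Mat 6) = 1 + aC)
    (hB : (B : Mat 6) = 1 + bC) (v : Fin 3 × ℕ → ZMod 7) :
    ∀ g ∈ D2 F, ∀ h ∈ D2 F, fv A B v (g * h) = fv A B v g + fv A B v h := by
  intro g hg h hh
  have hk := (hK aC bC isN_aC isN_bC (rho A B v) (rho_lin hUNI hLEAD hA hB v)).2
  have h1 := hk g hg
  have h2 := hk h hh
  have h3 := (h1.mul h2).eq_zero (by norm_num)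
  unfold fv
  rw [map_mul, Units.val_mul]
  set X : Mat 6 := ((rho A B v g : (Mat 6)ˣ) : Mat 6)
  set Y : Mat 6 := ((rho A B v h : (Mat 6)ˣ) : Mat 6)
  have e : X * Y = (X - 1) * (Y - 1) + X + Y - 1 := by noncomm_ring
  rw [e, h3, zero_add, Matrix.sub_apply, Matrix.add_apply]
  have : (1 : Mat 6) 0 5 = 0 := Matrix.one_apply_ne (by decide)
  rw [this, sub_zero]

theorem fv_V (hUNI : S_UNI) (hLEAD : S_LEAD) (hK : S_KSIX) (hA : (A : Mat 6) = 1 + aC)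
    (hB : (B : Mat 6) = 1 + bC) (v : Fin 3 × ℕ → ZMod 7) (w : F) (hw : w ∈ V) :
    fv A B v w = 0 := by
  have hk := (hK aC bC isN_aC isN_bC (rho A B v) (rho_lin hUNI hLEAD hA hB v)).1 w hw
  unfold fv
  rw [hk, Units.val_one]
  exact Matrix.one_apply_ne (by decide)

theorem fv_law (hLAW : S_LAWEV) (hA : (A : Mat 6) = 1 + aC)
    (hB : (B : Mat 6) = 1 + bC) (v : Fin 3 × ℕ → ZMod 7) (w : F) (hw : Law2 w) :
    fv A B v w = 0 := by
  have h := hLAW aC bC isN_aC isN_bC A B hA hB w hw (phiv v)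
  unfold fv rho
  rw [MonoidHom.comp_apply, h, Units.val_one]
  exact Matrix.one_apply_ne (by decide)

theorem fv_T (hLEAD : S_LEAD) (hEVT : S_EVT) (hA : (A : Mat 6) = 1 + aC)
    (hB : (B : Mat 6) = 1 + bC) (v : Fin 3 × ℕ → ZMod 7) (a b c d e : ℕ) :
    fv A B v (T FreeGroup.of a b c d e) =
      -((v (0, a) * v (1, b) - v (1, a) * v (0, b)) *
        (v (0, c) * v (1, d) - v (1, c) * v (0, d)) * v (0, e)) := by
  have h := (hEVT ![xv A B v a, xv A B v b, xv A B v c, xv A B v d, xv A B v e]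
    ![v (0, a), v (0, b), v (0, c), v (0, d), v (0, e)]
    ![v (1, a), v (1, b), v (1, c), v (1, d), v (1, e)] (by
      intro k
      fin_cases k <;> exact lin_xv hLEAD hA hB v _)).2
  unfold fv
  rw [rho_T]
  exact h

/-- colour 2 set to zero -/
def v0 (v : Fin 3 × ℕ → ZMod 7) : Fin 3 × ℕ → ZMod 7 := fun p => if p.1 = 2 then 0 else v p

theorem fv_T0 (hLEAD : S_LEAD) (hEVT : S_EVT) (hA : (A : Mat 6) = 1 + aC)
    (hB : (B : Mat 6) = 1 + bC) (v : Fin 3 × ℕ → ZMod 7) (a b c d e : ℕ) :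
    fv A B (v0 v) (T FreeGroup.of a b c d e) = fv A B v (T FreeGroup.of a b c d e) := by
  rw [fv_T hLEAD hEVT hA hB, fv_T hLEAD hEVT hA hB]
  simp [v0]

theorem fv_Q (hEVQ : S_EVQ) (hA : (A : Mat 6) = 1 + aC)
    (hB : (B : Mat 6) = 1 + bC) (v : Fin 3 × ℕ → ZMod 7) (a b c d : ℕ) :
    fv A B v (Q FreeGroup.of a b c d) - fv A B (v0 v) (Q FreeGroup.of a b c d) =
      (v (0, c) * v (1, d) - v (1, c) * v (0, d)) * (v (2, a) * v (0, b) - v (2, b) * v (0, a)) -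
      (v (0, a) * v (1, b) - v (1, a) * v (0, b)) * (v (2, c) * v (0, d) - v (2, d) * v (0, c)) := by
  have hk : ∀ k, IsN 6 2 (((A ^ (v (0, k)).val * B ^ (v (1, k)).val : (Mat 6)ˣ) : Mat 6) - 1 -
      v (0, k) • aC - v (1, k) • bC) := by
    intro k
    rw [sub_sub]
    exact lin_AB hA hB _ _
  have h := hEVQ A B hA hB ![A ^ (v (0, a)).val * B ^ (v (1, a)).val,
      A ^ (v (0, b)).val * B ^ (v (1, b)).val, A ^ (v (0, c)).val * B ^ (v (1, c)).val,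
      A ^ (v (0, d)).val * B ^ (v (1, d)).val]
    ![v (0, a), v (0, b), v (0, c), v (0, d)] ![v (1, a), v (1, b), v (1, c), v (1, d)]
    ![(v (2, a)).val, (v (2, b)).val, (v (2, c)).val, (v (2, d)).val] (by
      intro k
      fin_cases k <;> exact hk _)
  unfold fv
  rw [rho_Q, rho_Q]
  have h0 : ∀ k, xv A B (v0 v) k = A ^ (v (0, k)).val * B ^ (v (1, k)).val := by
    intro k
    simp [xv, v0]
  rw [h0, h0, h0, h0]
  have h5 : (((⁅⁅xv A B v a, xv A B v b⁆, ⁅xv A B v c, xv A B v d⁆⁆ : (Mat 6)ˣ) : Mat 6) 0 5 -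
    ((⁅⁅A ^ (v (0, a)).val * B ^ (v (1, a)).val, A ^ (v (0, b)).val * B ^ (v (1, b)).val⁆,
      ⁅A ^ (v (0, c)).val * B ^ (v (1, c)).val, A ^ (v (0, d)).val * B ^ (v (1, d)).val⁆⁆ :
        (Mat 6)ˣ) : Mat 6) 0 5) =
      (v (0, c) * v (1, d) - v (1, c) * v (0, d)) *
        ((((v (2, a)).val : ℕ) : ZMod 7) * v (0, b) - (((v (2, b)).val : ℕ) : ZMod 7) * v (0, a)) -
      (v (0, a) * v (1, b) - v (1, a) * v (0, b)) *
        ((((v (2, c)).val : ℕ) : ZMod 7) * v (0, d) - (((v (2, d)).val : ℕ) : ZMod 7) * v (0, c)) := h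
  rw [h5, ZMod.natCast_zmod_val, ZMod.natCast_zmod_val, ZMod.natCast_zmod_val,
    ZMod.natCast_zmod_val]

end

end Pool.Agent.Q217.VG
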