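import Pool.Agent.Q217.VG.B

/-!
# Project VG, job STEPBC: the assembly
-/

set_option autoImplicit false

namespace Pool.Agent.Q217.VG

open Pool.Agent.Q266.VG
open scoped commutatorElement

/-- the words `Q` -/
def Qf (i : ℕ × ℕ × ℕ × ℕ) : F := Q FreeGroup.of i.1 i.2.1 i.2.2.1 i.2.2.2

/-- the words `T` -/
def Tf (i : ℕ × ℕ × ℕ × ℕ × ℕ) : F := T FreeGroup.of i.1 i.2.1 i.2.2.1 i.2.2.2.1 i.2.2.2.2

theorem zmod_mul_sum {ι : Type} (f : ι → ZMod 7) (l : List (ℤ × ι)) :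
    (l.map fun t => t.1 • f t.2).sum = (l.map fun t => (t.1 : ZMod 7) * f t.2).sum := by
  congr 1
  apply List.map_congr_left
  intro t _
  rw [zsmul_eq_mul]

/-- the terms of part (B) -/
def termsB (t : ℤ × (ℕ × ℕ × ℕ × ℕ)) : List (ℤ × (ℕ × ℕ × ℕ × ℕ)) :=
  [(t.1, (t.2.1, t.2.2.1, t.2.2.2.1, t.2.2.2.2)), (-t.1, (t.2.1, t.2.2.1, t.2.2.2.2, t.2.2.2.1)),
    (-t.1, (t.2.2.1, t.2.1, t.2.2.2.1, t.2.2.2.2)), (t.1, (t.2.2.1, t.2.1, t.2.2.2.2, t.2.2.2.1)),
    (-t.1, (t.2.2.2.1, t.2.1, t.2.2.2.2, t.2.2.1)), (t.1, (t.2.2.2.2, t.2.1, t.2.2.2.1, t.2.2.1)),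
    (t.1, (t.2.2.2.1, t.2.2.1, t.2.2.2.2, t.2.1)), (-t.1, (t.2.2.2.2, t.2.2.1, t.2.2.2.1, t.2.1))]

/-- the terms of part (C) -/
def termsC (t : ℤ × (ℕ × ℕ × ℕ × ℕ × ℕ)) : List (ℤ × (ℕ × ℕ × ℕ × ℕ × ℕ)) :=
  [(t.1, (t.2.2.1, t.2.2.2.2.1, t.2.1, t.2.2.2.1, t.2.2.2.2.2)),
    (-t.1, (t.2.2.1, t.2.2.2.1, t.2.1, t.2.2.2.2.1, t.2.2.2.2.2)),
    (-t.1, (t.2.1, t.2.2.2.2.1, t.2.2.1, t.2.2.2.1, t.2.2.2.2.2)),
    (t.1, (t.2.1, t.2.2.2.1, t.2.2.1, t.2.2.2.2.1, t.2.2.2.2.2))]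

/-- contents, part (B) -/
def muB (i : ℕ × ℕ × ℕ × ℕ) : Multiset (Fin 3 × ℕ) :=
  {((2 : Fin 3), i.1), (0, i.2.1), (0, i.2.2.1), (1, i.2.2.2)}

/-- contents, part (C) -/
def muC (i : ℕ × ℕ × ℕ × ℕ × ℕ) : Multiset (Fin 3 × ℕ) :=
  {((1 : Fin 3), i.1), (1, i.2.1), (0, i.2.2.1), (0, i.2.2.2.1), (0, i.2.2.2.2)}

theorem sum_seven {M : Type} [AddCommGroup M] {x : M} (h : (7 : ℕ) • x = 0) (n : ℤ) :
    (7 : ℤ) • n • x = 0 := by
  rw [smul_comm]
  have : (7 : ℤ) • x = 0 := by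
    have e : (7 : ℤ) • x = (7 : ℕ) • x := by norm_cast
    rw [e, h]
  rw [this, smul_zero]

theorem list_seven {M ι : Type} [AddCommGroup M] (f : ι → M) (h : ∀ i, (7 : ℕ) • f i = 0)
    (l : List (ℤ × ι)) : (7 : ℤ) • (l.map fun t => t.1 • f t.2).sum = 0 := by
  induction l with
  | nil => simp
  | cons a l ih =>
    rw [List.map_cons, List.sum_cons, smul_add, ih, sum_seven (h _), add_zero]

theorem seven_z {M : Type} [AddCommGroup M] {x : M} (h : (7 : ℕ) • x = 0) : (7 : ℤ) • x = 0 := by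
  have := sum_seven h 1
  simpa using this

/-- part (B) -/
theorem partB (hRELQ : S_RELQ) (hSYM : S_SYM) (hIDB : S_IDB)
    (l : List (ℤ × (ℕ × ℕ × ℕ × ℕ)))
    (h : ∀ v : Fin 3 × ℕ → ZMod 7, (l.map fun t => (t.1 : ZMod 7) *
      ((v (0, t.2.2.2.1) * v (1, t.2.2.2.2) - v (1, t.2.2.2.1) * v (0, t.2.2.2.2)) *
        (v (2, t.2.1) * v (0, t.2.2.1) - v (2, t.2.2.1) * v (0, t.2.1)) -
      (v (0, t.2.1) * v (1, t.2.2.1) - v (1, t.2.1) * v (0, t.2.2.1)) *
        (v (2, t.2.2.2.1) * v (0, t.2.2.2.2) - v (2, t.2.2.2.2) * v (0, t.2.2.2.1)))).sum = 0) :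
    (l.map fun t => t.1 • F1 (Qf t.2)).sum = 0 := by
  obtain ⟨hinv, hid⟩ := hIDB L q (fun a b c d => q_rel hRELQ a b c d)
  have hs := hSYM (ℕ × ℕ × ℕ × ℕ) L muB
    (fun i => PhiB q i.1 i.2.1 i.2.2.1 i.2.2.2)
    (fun i j hij => hinv _ _ _ _ _ _ _ _ hij)
    (fun i => by
      unfold PhiB
      rw [smul_add, seven_z (q_seven hRELQ _ _ _ _), seven_z (q_seven hRELQ _ _ _ _), add_zero])
    (l.flatMap termsB)
    (fun t _ => by simp [muB])
    (fun v => by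
      rw [sum_flat, ← h v]
      congr 1
      apply List.map_congr_left
      intro t _
      simp only [termsB, muB, List.map_cons, List.map_nil, List.sum_cons, List.sum_nil,
        Multiset.insert_eq_cons, Multiset.map_cons, Multiset.map_singleton, Multiset.prod_cons,
        Multiset.prod_singleton, Int.cast_neg]
      ring)
  rw [sum_flat] at hs
  have e : (l.map fun t => ((termsB t).map fun t => t.1 • PhiB q t.2.1 t.2.2.1 t.2.2.2.1
      t.2.2.2.2).sum).sum = (8 : ℤ) • (l.map fun t => t.1 • F1 (Qf t.2)).sum := by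
    rw [List.smul_sum, List.map_map]
    congr 1
    apply List.map_congr_left
    intro t _
    have h8 := hid t.2.1 t.2.2.1 t.2.2.2.1 t.2.2.2.2
    have hq : F1 (Qf t.2) = q t.2.1 t.2.2.1 t.2.2.2.1 t.2.2.2.2 := rfl
    rw [Function.comp_apply, smul_comm, hq, ← h8]
    simp only [termsB, List.map_cons, List.map_nil, List.sum_cons, List.sum_nil, neg_smul,
      smul_sub, smul_add]
    abel
  rw [e] at hs
  have h7 := list_seven (fun i => F1 (Qf i)) (fun i => q_seven hRELQ _ _ _ _) l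
  have e1 : (l.map fun t => t.1 • F1 (Qf t.2)).sum =
      (8 : ℤ) • (l.map fun t => t.1 • F1 (Qf t.2)).sum -
      (7 : ℤ) • (l.map fun t => t.1 • F1 (Qf t.2)).sum := by
    rw [← sub_smul]; norm_num
  rw [e1, hs, h7, sub_zero]

/-- part (C) -/
theorem partC (hRELT : S_RELT) (hSYM : S_SYM) (hIDC : S_IDC)
    (l : List (ℤ × (ℕ × ℕ × ℕ × ℕ × ℕ)))
    (h : ∀ v : Fin 3 × ℕ → ZMod 7, (l.map fun t => (t.1 : ZMod 7) *
      ((v (0, t.2.1) * v (1, t.2.2.1) - v (1, t.2.1) * v (0, t.2.2.1)) *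
        (v (0, t.2.2.2.1) * v (1, t.2.2.2.2.1) - v (1, t.2.2.2.1) * v (0, t.2.2.2.2.1)) *
        v (0, t.2.2.2.2.2))).sum = 0) :
    (l.map fun t => t.1 • F1 (Tf t.2)).sum = 0 := by
  obtain ⟨hinv, hid⟩ := hIDC L t (fun a b c d e => t_rel hRELT a b c d e)
  have hs := hSYM (ℕ × ℕ × ℕ × ℕ × ℕ) L muC
    (fun i => PhiC t i.1 i.2.1 i.2.2.1 i.2.2.2.1 i.2.2.2.2)
    (fun i j hij => hinv _ _ _ _ _ _ _ _ _ _ hij)
    (fun i => by
      unfold PhiC
      simp only [smul_add, seven_z (t_seven hRELT _ _ _ _ _), add_zero])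
    (l.flatMap termsC)
    (fun t _ => by simp [muC])
    (fun v => by
      rw [sum_flat, ← h v]
      congr 1
      apply List.map_congr_left
      intro t _
      simp only [termsC, muC, List.map_cons, List.map_nil, List.sum_cons, List.sum_nil,
        Multiset.insert_eq_cons, Multiset.map_cons, Multiset.map_singleton, Multiset.prod_cons,
        Multiset.prod_singleton, Int.cast_neg]
      ring)
  rw [sum_flat] at hs
  have e : (l.map fun s => ((termsC s).map fun s => s.1 • PhiC t s.2.1 s.2.2.1 s.2.2.2.1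
      s.2.2.2.2.1 s.2.2.2.2.2).sum).sum = (12 : ℤ) • (l.map fun s => s.1 • F1 (Tf s.2)).sum := by
    rw [List.smul_sum, List.map_map]
    congr 1
    apply List.map_congr_left
    intro s _
    have h8 := hid s.2.1 s.2.2.1 s.2.2.2.1 s.2.2.2.2.1 s.2.2.2.2.2
    have hq : F1 (Tf s.2) = t s.2.1 s.2.2.1 s.2.2.2.1 s.2.2.2.2.1 s.2.2.2.2.2 := rfl
    rw [Function.comp_apply, smul_comm, hq, ← h8]
    simp only [termsC, List.map_cons, List.map_nil, List.sum_cons, List.sum_nil, neg_smul,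
      smul_sub, smul_add]
    abel
  rw [e] at hs
  have h7 := list_seven (fun i => F1 (Tf i)) (fun i => t_seven hRELT _ _ _ _ _) l
  have e1 : (l.map fun t => t.1 • F1 (Tf t.2)).sum =
      (3 : ℤ) • (12 : ℤ) • (l.map fun t => t.1 • F1 (Tf t.2)).sum -
      (5 : ℤ) • (7 : ℤ) • (l.map fun t => t.1 • F1 (Tf t.2)).sum := by
    rw [smul_smul, smul_smul, ← sub_smul]; norm_num
  rw [e1, hs, h7, smul_zero, smul_zero, sub_zero]

theorem stepbc : S_UNI → S_LEAD → S_FIL → S_KSIX → S_LAWEV → S_EVT → S_EVQ → S_GENTWO →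
    S_RELQ → S_RELT → S_SYM → S_IDB → S_IDC → S_STEPBC := by
  intro hUNI hLEAD _ hK hLAW hEVT hEVQ hGEN hRELQ hRELT hSYM hIDB hIDC w hw hlaw
  obtain ⟨A, hA⟩ := hUNI.1 6 aC isN_aC
  obtain ⟨B, hB⟩ := hUNI.1 6 bC isN_bC
  -- the combined map
  let Ψ : F → L × ((Fin 3 × ℕ → ZMod 7) → ZMod 7) := fun w => (F1 w, fun v => fv A B v w)
  have hmul : ∀ g ∈ D2 F, ∀ h ∈ D2 F, Ψ (g * h) = Ψ g + Ψ h := by
    intro g hg h hh
    refine Prod.ext ?_ ?_
    · exact F1_mul (D2_le_U hg) (D2_le_U hh)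
    · funext v
      exact fv_mul hUNI hLEAD hK hA hB v g hg h hh
  have hV : ∀ w ∈ V, w ∈ D2 F → Ψ w = 0 := by
    intro w hw hwD
    refine Prod.ext ?_ ?_
    · exact (F1_eq_zero (D2_le_U hwD)).2 hw
    · funext v
      exact fv_V hUNI hLEAD hK hA hB v w hw
  -- representation
  have hN : ⁅D2 F, (⊤ : Subgroup F)⁆ ⊔ (gam F 5 ⊓ D2 F) ≤ V ⊓ D2 F := by
    refine sup_le (le_inf (Subgroup.commutator_mono D2_le_U le_rfl)
      (Subgroup.commutator_le_left _ _)) (le_inf (inf_le_left.trans gam5_le_V) inf_le_right)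
  have hw' := hGEN hw
  rw [Subgroup.mem_sup_of_normal_right] at hw'
  obtain ⟨s, hs, n, hn, hsn⟩ := hw'
  have hset : ({g | ∃ a b c d : ℕ, g = Q FreeGroup.of a b c d} ∪
      {g | ∃ a b c d e : ℕ, g = T FreeGroup.of a b c d e} : Set F) =
      Set.range Qf ∪ Set.range Tf := by
    congr 1
    · ext g
      constructor
      · rintro ⟨a, b, c, d, rfl⟩; exact ⟨(a, b, c, d), rfl⟩
      · rintro ⟨⟨a, b, c, d⟩, rfl⟩; exact ⟨a, b, c, d, rfl⟩
    · ext g
      constructor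
      · rintro ⟨a, b, c, d, e, rfl⟩; exact ⟨(a, b, c, d, e), rfl⟩
      · rintro ⟨⟨a, b, c, d, e⟩, rfl⟩; exact ⟨a, b, c, d, e, rfl⟩
  rw [hset] at hs
  obtain ⟨hsD, lQ, lT, hrep⟩ := rep hmul Qf Tf (fun i => Q_mem _ _ _ _)
    (fun i => T_mem _ _ _ _ _) s hs
  have hnV := hN hn
  have hΨw : Ψ w = (lQ.map fun t => t.1 • Ψ (Qf t.2)).sum +
      (lT.map fun t => t.1 • Ψ (Tf t.2)).sum := by
    rw [← hsn, hmul s hsD n hnV.2, hV n hnV.1 hnV.2, add_zero, hrep]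
  have hfst : ∀ {ι : Type} (e : ι → F) (l : List (ℤ × ι)),
      ((l.map fun t => t.1 • Ψ (e t.2)).sum).1 = (l.map fun t => t.1 • F1 (e t.2)).sum := by
    intro ι e l
    induction l with
    | nil => simp
    | cons a l ih => rw [List.map_cons, List.sum_cons, List.map_cons, List.sum_cons, Prod.fst_add, ih]; rfl
  have hsnd : ∀ {ι : Type} (e : ι → F) (l : List (ℤ × ι)) (v : Fin 3 × ℕ → ZMod 7),
      ((l.map fun t => t.1 • Ψ (e t.2)).sum).2 v =
        (l.map fun t => (t.1 : ZMod 7) * fv A B v (e t.2)).sum := by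
    intro ι e l v
    induction l with
    | nil => simp
    | cons a l ih =>
      rw [List.map_cons, List.sum_cons, List.map_cons, List.sum_cons, Prod.snd_add, Pi.add_apply,
        ih]
      congr 1
      change a.1 • fv A B v (e a.2) = _
      rw [zsmul_eq_mul]
  have hfv : ∀ v, fv A B v w = (lQ.map fun t => (t.1 : ZMod 7) * fv A B v (Qf t.2)).sum +
      (lT.map fun t => (t.1 : ZMod 7) * fv A B v (Tf t.2)).sum := by
    intro v
    have := congrFun (congrArg Prod.snd hΨw) v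
    rw [Prod.snd_add, Pi.add_apply, hsnd, hsnd] at this
    exact this
  have hF1 : F1 w = (lQ.map fun t => t.1 • F1 (Qf t.2)).sum +
      (lT.map fun t => t.1 • F1 (Tf t.2)).sum := by
    have := congrArg Prod.fst hΨw
    rw [Prod.fst_add, hfst, hfst] at this
    exact this
  -- part (B)
  have hB0 : (lQ.map fun t => t.1 • F1 (Qf t.2)).sum = 0 := by
    apply partB hRELQ hSYM hIDB
    intro v
    have h1 := hfv v
    have h2 := hfv (v0 v)
    rw [fv_law hLAW hA hB _ w hlaw] at h1 h2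
    have h3 : (lT.map fun t => (t.1 : ZMod 7) * fv A B (v0 v) (Tf t.2)).sum =
        (lT.map fun t => (t.1 : ZMod 7) * fv A B v (Tf t.2)).sum := by
      congr 1
      apply List.map_congr_left
      intro t _
      congr 1
      exact fv_T0 hLEAD hEVT hA hB v _ _ _ _ _
    rw [h3] at h2
    have h4 : (lQ.map fun t => (t.1 : ZMod 7) * fv A B v (Qf t.2)).sum -
        (lQ.map fun t => (t.1 : ZMod 7) * fv A B (v0 v) (Qf t.2)).sum = 0 := by
      linear_combination h2 - h1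
    rw [← h4]
    have h5 : ∀ l : List (ℤ × (ℕ × ℕ × ℕ × ℕ)),
        (l.map fun t => (t.1 : ZMod 7) *
      ((v (0, t.2.2.2.1) * v (1, t.2.2.2.2) - v (1, t.2.2.2.1) * v (0, t.2.2.2.2)) *
        (v (2, t.2.1) * v (0, t.2.2.1) - v (2, t.2.2.1) * v (0, t.2.1)) -
      (v (0, t.2.1) * v (1, t.2.2.1) - v (1, t.2.1) * v (0, t.2.2.1)) *
        (v (2, t.2.2.2.1) * v (0, t.2.2.2.2) - v (2, t.2.2.2.2) * v (0, t.2.2.2.1)))).sum =
        (l.map fun t => (t.1 : ZMod 7) * fv A B v (Qf t.2)).sum -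
        (l.map fun t => (t.1 : ZMod 7) * fv A B (v0 v) (Qf t.2)).sum := by
      intro l
      induction l with
      | nil => simp
      | cons a l ih =>
        simp only [List.map_cons, List.sum_cons]
        rw [ih]
        have h6 := fv_Q hEVQ hA hB v a.2.1 a.2.2.1 a.2.2.2.1 a.2.2.2.2
        have h7 : fv A B v (Qf a.2) - fv A B (v0 v) (Qf a.2) = _ := h6
        rw [← h7]
        ring
    exact h5 lQ
  -- the element of `V`
  have hw1 := psi_list hmul Qf (fun i => Q_mem _ _ _ _) lQ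
  have hw1V : (lQ.map fun t => Qf t.2 ^ t.1).prod ∈ V := by
    rw [← F1_eq_zero (D2_le_U hw1.1)]
    have := congrArg Prod.fst hw1.2
    rw [hfst] at this
    exact this.trans hB0
  have hC : ∀ v, (lQ.map fun t => (t.1 : ZMod 7) * fv A B v (Qf t.2)).sum = 0 := by
    intro v
    have := congrFun (congrArg Prod.snd hw1.2) v
    rw [hsnd] at this
    rw [← this]
    exact fv_V hUNI hLEAD hK hA hB v _ hw1V
  -- part (C)
  have hC0 : (lT.map fun t => t.1 • F1 (Tf t.2)).sum = 0 := by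
    apply partC hRELT hSYM hIDC
    intro v
    have h1 := hfv v
    rw [fv_law hLAW hA hB _ w hlaw, hC v, zero_add] at h1
    have h5 : ∀ l : List (ℤ × (ℕ × ℕ × ℕ × ℕ × ℕ)),
        (l.map fun t => (t.1 : ZMod 7) *
      ((v (0, t.2.1) * v (1, t.2.2.1) - v (1, t.2.1) * v (0, t.2.2.1)) *
        (v (0, t.2.2.2.1) * v (1, t.2.2.2.2.1) - v (1, t.2.2.2.1) * v (0, t.2.2.2.2.1)) *
        v (0, t.2.2.2.2.2))).sum =
        -(l.map fun t => (t.1 : ZMod 7) * fv A B v (Tf t.2)).sum := by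
      intro l
      induction l with
      | nil => simp
      | cons a l ih =>
        simp only [List.map_cons, List.sum_cons]
        rw [ih]
        have h6 := fv_T hLEAD hEVT hA hB v a.2.1 a.2.2.1 a.2.2.2.1 a.2.2.2.2.1 a.2.2.2.2.2
        have h7 : fv A B v (Tf a.2) = _ := h6
        rw [h7]
        ring
    rw [h5 lT, ← h1, neg_zero]
  rw [hB0, hC0, add_zero] at hF1
  exact (F1_eq_zero (D2_le_U hw)).1 hF1

end Pool.Agent.Q217.VG
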